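import Mathlib
import Pool.Agent.MP_2dc627_co.H36.Defs
import Pool.Agent.MP_2dc627_co.H36.Final

namespace Pool.Agent.Results.MP_2dc627_co.Full

open Pool.Agent.MP_2dc627_co.H36

/-- For every finite nonempty set of positive tile lengths and all large `n`, an intersecting
family of tilings of `[n]` has at most as many members as there are tilings of `[n - min Λ]`. -/
theorem result : ∀ (Λ : Finset ℕ) (hne : Λ.Nonempty), 0 ∉ Λ → ∃ N : ℕ, Λ.min' hne ≤ N ∧
    ∀ n, N ≤ n → ∀ F : Finset (List ℕ), (F : Set (List ℕ)) ⊆ tilings Λ n →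
      (F : Set (List ℕ)).Pairwise Intersect → F.card ≤ (tilings Λ (n - Λ.min' hne)).ncard := by
  intro Λ hne h0
  obtain ⟨N, hN⟩ := final Λ hne h0
  exact ⟨N + Λ.min' hne, by omega, fun n hn => hN n (by omega)⟩

end Pool.Agent.Results.MP_2dc627_co.Full
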